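import Pool.Agent.T9h56.TG.Count
import Pool.Agent.T9h18.TG.Riemann
import Pool.Agent.H261R2.CM.F

/-!
# From the tail estimate to the limit of the means of the logarithms
-/

set_option autoImplicit false

namespace Pool.Agent.T9h18.TG

open Filter MeasureTheory Topology
open Pool.Agent.T9h56.TG
open Pool.Agent.H261R2.CM (tv F_integrable F_zero_null F_continuous_tv)

theorem vl_eq_tv {N n : ℕ} (f : MvPolynomial (Fin N) ℤ) (k : Fin N → Fin n) :
    vl f k = tv f (fun i => ((k i : ℕ) : ℝ) / n) := by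
  unfold vl vh tv rt
  rw [MvPolynomial.eval_map, MvPolynomial.coe_eval₂Hom]
  congr 1
  funext i
  push_cast
  rfl

/-- truncated logarithm -/
noncomputable def tl (K : ℕ) (x : ℝ) : ℝ := Real.log (max x (Real.exp (-(K : ℝ))))

theorem tl_continuous {X : Type*} [TopologicalSpace X] (K : ℕ) {g : X → ℝ} (hg : Continuous g) :
    Continuous fun x => tl K (g x) := by
  unfold tl
  refine Continuous.log (hg.max continuous_const) fun x => ?_
  exact (lt_of_lt_of_le (Real.exp_pos _) (le_max_right _ _)).ne'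

theorem tl_split (K : ℕ) (v : ℂ) : Real.log ‖v‖ =
    tl K ‖v‖ - (if v = 0 then (0 : ℝ) else max 0 (-Real.log ‖v‖ - K)) +
      (if v = 0 then (K : ℝ) else 0) := by
  unfold tl
  by_cases hv : v = 0
  · rw [if_pos hv, if_pos hv, hv, norm_zero, Real.log_zero, max_eq_right (Real.exp_pos _).le,
      Real.log_exp]
    ring
  · rw [if_neg hv, if_neg hv]
    have h0 : 0 < ‖v‖ := norm_pos_iff.2 hv
    rcases le_or_gt (Real.exp (-(K : ℝ))) ‖v‖ with h | h
    · have h1 : -(K : ℝ) ≤ Real.log ‖v‖ := (Real.le_log_iff_exp_le h0).2 h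
      rw [max_eq_left h, max_eq_left (by linarith)]
      ring
    · have h1 : Real.log ‖v‖ < -(K : ℝ) := (Real.log_lt_iff_lt_exp h0).2 h
      rw [max_eq_right h.le, Real.log_exp, max_eq_right (by linarith)]
      ring

theorem tl_abs_le (K : ℕ) {x : ℝ} (hx : 0 < x) : |tl K x| ≤ |Real.log x| := by
  unfold tl
  rcases le_or_gt (Real.exp (-(K : ℝ))) x with h | h
  · rw [max_eq_left h]
  · have h1 : Real.log x < -(K : ℝ) := (Real.log_lt_iff_lt_exp hx).2 h
    have h2 : (0 : ℝ) ≤ K := Nat.cast_nonneg K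
    rw [max_eq_right h.le, Real.log_exp, abs_neg, abs_of_nonneg h2, abs_of_neg (by linarith)]
    linarith

theorem tl_tendsto {x : ℝ} (hx : 0 < x) :
    Tendsto (fun K : ℕ => tl K x) atTop (nhds (Real.log x)) := by
  refine tendsto_const_nhds.congr' ?_
  have h : Tendsto (fun K : ℕ => (K : ℝ)) atTop atTop := tendsto_natCast_atTop_atTop
  filter_upwards [h.eventually_ge_atTop (-Real.log x)] with K hK
  unfold tl
  rw [max_eq_left]
  rw [← Real.le_log_iff_exp_le hx]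
  linarith

/-- the integrals of the truncated logarithms converge -/
theorem int_tendsto (N : ℕ) (f : MvPolynomial (Fin N) ℤ) (hf : f ≠ 0) :
    Tendsto (fun K : ℕ => ∫ t in Set.Icc (0 : Fin N → ℝ) 1, tl K ‖tv f t‖) atTop
      (nhds (∫ t in Set.Icc (0 : Fin N → ℝ) 1, Real.log ‖tv f t‖)) := by
  refine tendsto_integral_of_dominated_convergence (fun t => |Real.log ‖tv f t‖|) ?_ ?_ ?_ ?_
  · intro K
    exact (tl_continuous K (F_continuous_tv f).norm).aestronglyMeasurable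
  · exact (F_integrable hf).abs
  · intro K
    filter_upwards [F_zero_null hf] with t ht
    rw [Real.norm_eq_abs]
    exact tl_abs_le K (norm_pos_iff.2 ht)
  · filter_upwards [F_zero_null hf] with t ht
    exact tl_tendsto (norm_pos_iff.2 ht)

/-- few zeros -/
theorem zeros_le (N : ℕ) (f : MvPolynomial (Fin N) ℤ) (hf : f ≠ 0) : ∃ C : ℝ, 0 < C ∧
    ∀ n : ℕ, 0 < n → (cnt (fun k : Fin N → Fin n => vl f k = 0) : ℝ) ≤ C / n * n ^ N := by
  obtain ⟨C, α, hC, hα, h⟩ := card_le N f hf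
  refine ⟨2 * C, by positivity, fun n hn => ?_⟩
  have hnR : (0 : ℝ) < n := by exact_mod_cast hn
  have hn1 : (1 : ℝ) ≤ n := by exact_mod_cast hn
  have h0 : (0 : ℝ) < 1 / n := by positivity
  have h1 : (1 : ℝ) / n ≤ 1 := (div_le_one hnR).2 hn1
  have hδ : (0 : ℝ) < (1 / (n : ℝ)) ^ (1 / α) := Real.rpow_pos_of_pos h0 _
  have hδ1 : (1 / (n : ℝ)) ^ (1 / α) ≤ 1 := Real.rpow_le_one h0.le h1 (by positivity)
  have h2 := h n hn _ hδ hδ1
  rw [← Real.rpow_mul h0.le, one_div_mul_cancel hα.ne', Real.rpow_one] at h2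
  refine le_trans ?_ (h2.trans (le_of_eq ?_))
  · have : cnt (fun k : Fin N → Fin n => vl f k = 0) ≤
        cnt (fun k : Fin N → Fin n => ‖vl f k‖ ≤ (1 / (n : ℝ)) ^ (1 / α)) := by
      refine cnt_mono fun k hk => ?_
      rw [hk, norm_zero]
      exact hδ.le
    exact_mod_cast this
  · ring

theorem final (N : ℕ) (f : MvPolynomial (Fin N) ℤ) (hf : f ≠ 0)
    (htail : ∀ δ : ℝ, 0 < δ → ∀ᶠ K : ℕ in atTop, ∀ᶠ n : ℕ in atTop,
      ∑ k : Fin N → Fin n, (if vl f k = 0 then (0 : ℝ) else max 0 (-Real.log ‖vl f k‖ - K)) ≤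
        δ * n ^ N) :
    Tendsto (fun n : ℕ => (∑ k : Fin N → Fin n, Real.log ‖vl f k‖) / (n : ℝ) ^ N) atTop
      (nhds (∫ t in Set.Icc (0 : Fin N → ℝ) 1, Real.log ‖Pool.Agent.H261R2.CM.tv f t‖)) := by
  classical
  rw [Metric.tendsto_atTop']
  intro ε hε
  obtain ⟨C, hC, hz⟩ := zeros_le N f hf
  have h1 := (Metric.tendsto_nhds.1 (int_tendsto N f hf)) (ε / 4) (by positivity)
  obtain ⟨K, hK1, hK2⟩ := (h1.and (htail (ε / 4) (by positivity))).exists
  have hR := riemann N (fun t => tl K ‖tv f t‖) (tl_continuous K (F_continuous_tv f).norm)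
  have hR1 := (Metric.tendsto_nhds.1 hR) (ε / 4) (by positivity)
  have hZ : Tendsto (fun n : ℕ => (K : ℝ) * (C / n)) atTop (nhds ((K : ℝ) * 0)) :=
    (tendsto_const_div_atTop_nhds_zero_nat C).const_mul _
  rw [mul_zero] at hZ
  have hZ1 := hZ.eventually_lt_const (show (0 : ℝ) < ε / 4 by positivity)
  have hall := ((hK2.and hR1).and (hZ1.and (eventually_gt_atTop 0)))
  obtain ⟨n0, hn0⟩ := eventually_atTop.1 hall
  refine ⟨n0, fun n hn => ?_⟩
  obtain ⟨⟨e1, e2⟩, e3, e4⟩ := hn0 n hn.le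
  have hnR : (0 : ℝ) < n := by exact_mod_cast e4
  have hnN : (0 : ℝ) < (n : ℝ) ^ N := by positivity
  have hsum : ∑ k : Fin N → Fin n, Real.log ‖vl f k‖ =
      ∑ k : Fin N → Fin n, tl K ‖tv f (fun i => ((k i : ℕ) : ℝ) / n)‖ -
      ∑ k : Fin N → Fin n, (if vl f k = 0 then (0 : ℝ) else max 0 (-Real.log ‖vl f k‖ - K)) +
      ∑ k : Fin N → Fin n, (if vl f k = 0 then (K : ℝ) else 0) := by
    rw [← Finset.sum_sub_distrib, ← Finset.sum_add_distrib]
    refine Finset.sum_congr rfl fun k _ => ?_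
    rw [← vl_eq_tv]
    exact tl_split K (vl f k)
  have hB0 : 0 ≤ ∑ k : Fin N → Fin n,
      (if vl f k = 0 then (0 : ℝ) else max 0 (-Real.log ‖vl f k‖ - K)) := by
    refine Finset.sum_nonneg fun k _ => ?_
    split_ifs
    · exact le_rfl
    · exact le_max_left _ _
  have hZs : ∑ k : Fin N → Fin n, (if vl f k = 0 then (K : ℝ) else 0) =
      (cnt (fun k : Fin N → Fin n => vl f k = 0) : ℝ) * K := by
    rw [← Finset.sum_filter, Finset.sum_const, nsmul_eq_mul]
    unfold cnt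
    congr!
  have hZ0 : 0 ≤ ∑ k : Fin N → Fin n, (if vl f k = 0 then (K : ℝ) else 0) := by
    rw [hZs]
    positivity
  have hZle : ∑ k : Fin N → Fin n, (if vl f k = 0 then (K : ℝ) else 0) ≤ ε / 4 * n ^ N := by
    rw [hZs]
    calc (cnt (fun k : Fin N → Fin n => vl f k = 0) : ℝ) * K ≤ (C / n * n ^ N) * K :=
          mul_le_mul_of_nonneg_right (hz n e4) (Nat.cast_nonneg K)
      _ = ((K : ℝ) * (C / n)) * n ^ N := by ring
      _ ≤ ε / 4 * n ^ N := mul_le_mul_of_nonneg_right e3.le hnN.le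
  rw [hsum, Real.dist_eq]
  set A := ∑ k : Fin N → Fin n, tl K ‖tv f (fun i => ((k i : ℕ) : ℝ) / n)‖
  set B := ∑ k : Fin N → Fin n, (if vl f k = 0 then (0 : ℝ) else max 0 (-Real.log ‖vl f k‖ - K))
  set Z := ∑ k : Fin N → Fin n, (if vl f k = 0 then (K : ℝ) else 0)
  rw [Real.dist_eq] at hK1 e2
  have e5 : (A - B + Z) / (n : ℝ) ^ N = A / n ^ N - B / n ^ N + Z / n ^ N := by ring
  have e6 : B / (n : ℝ) ^ N ≤ ε / 4 := (div_le_iff₀ hnN).2 e1
  have e7 : 0 ≤ B / (n : ℝ) ^ N := div_nonneg hB0 hnN.le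
  have e8 : Z / (n : ℝ) ^ N ≤ ε / 4 := (div_le_iff₀ hnN).2 hZle
  have e9 : 0 ≤ Z / (n : ℝ) ^ N := div_nonneg hZ0 hnN.le
  rw [e5]
  rw [abs_lt] at hK1 e2 ⊢
  constructor <;> linarith [hK1.1, hK1.2, e2.1, e2.2]

end Pool.Agent.T9h18.TG
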