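import Mathlib

/-! A Liouville lower bound for the values of an integer polynomial at roots of unity. -/

set_option autoImplicit false

namespace Pool.Agent.T9h18.TG

open MvPolynomial

/-- the sum of the absolute values of the coefficients, plus one -/
noncomputable def mass {N : ℕ} (f : MvPolynomial (Fin N) ℤ) : ℝ :=
  1 + ∑ e ∈ f.support, |((f.coeff e : ℤ) : ℝ)|

theorem one_le_mass {N : ℕ} (f : MvPolynomial (Fin N) ℤ) : 1 ≤ mass f := by
  unfold mass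
  have : 0 ≤ ∑ e ∈ f.support, |((f.coeff e : ℤ) : ℝ)| := Finset.sum_nonneg fun _ _ => abs_nonneg _
  linarith

theorem eval_le_mass {N : ℕ} (f : MvPolynomial (Fin N) ℤ) (w : Fin N → ℂ)
    (hw : ∀ i, ‖w i‖ = 1) : ‖eval₂Hom (Int.castRingHom ℂ) w f‖ ≤ mass f := by
  rw [MvPolynomial.coe_eval₂Hom, MvPolynomial.eval₂_eq]
  refine (norm_sum_le _ _).trans ?_
  unfold mass
  have h : ∀ e ∈ f.support, ‖(Int.castRingHom ℂ) (f.coeff e) * ∏ i ∈ e.support, w i ^ e i‖ ≤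
      |((f.coeff e : ℤ) : ℝ)| := by
    intro e _
    rw [norm_mul, norm_prod]
    have h1 : ∏ i ∈ e.support, ‖w i ^ e i‖ = 1 := by
      refine Finset.prod_eq_one fun i _ => ?_
      rw [norm_pow, hw i, one_pow]
    rw [h1, mul_one, eq_intCast, Complex.norm_intCast]
  have := Finset.sum_le_sum h
  linarith

/-- an algebraic integer of a number field, all conjugates at most M, is at least M^(-degree) -/
theorem norm_lower (K : Type) [Field K] [NumberField K] (x : K) (hx : IsIntegral ℤ x)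
    (hx0 : x ≠ 0) (M : ℝ) (hM1 : 1 ≤ M) (hM : ∀ σ : K →ₐ[ℚ] ℂ, ‖σ x‖ ≤ M) (φ : K →ₐ[ℚ] ℂ) :
    1 ≤ ‖φ x‖ * M ^ (Module.finrank ℚ K) := by
  classical
  have h1 := Algebra.norm_eq_prod_embeddings ℚ ℂ x
  have h2 : IsIntegral ℤ (Algebra.norm ℚ x) := Algebra.isIntegral_norm ℚ hx
  obtain ⟨m, hm⟩ := IsIntegrallyClosed.isIntegral_iff.1 h2
  have h3 : Algebra.norm ℚ x ≠ 0 := Algebra.norm_ne_zero_iff.2 hx0
  have h4 : m ≠ 0 := by
    rintro rfl
    exact h3 (by rw [← hm]; simp)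
  have h5 : (1 : ℝ) ≤ ‖(algebraMap ℚ ℂ) (Algebra.norm ℚ x)‖ := by
    rw [← hm]
    have : (algebraMap ℚ ℂ) ((algebraMap ℤ ℚ) m) = (m : ℂ) := by simp
    rw [this, Complex.norm_intCast]
    have : (1 : ℤ) ≤ |m| := Int.one_le_abs h4
    exact_mod_cast this
  rw [h1, norm_prod] at h5
  have h6 : ∏ σ : K →ₐ[ℚ] ℂ, ‖σ x‖ = ‖φ x‖ * ∏ σ ∈ Finset.univ.erase φ, ‖σ x‖ :=
    (Finset.mul_prod_erase Finset.univ _ (Finset.mem_univ φ)).symm
  have h7 : ∏ σ ∈ Finset.univ.erase φ, ‖σ x‖ ≤ M ^ (Finset.univ.erase φ).card := by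
    rw [← Finset.prod_const]
    exact Finset.prod_le_prod (fun _ _ => norm_nonneg _) fun σ _ => hM σ
  have h8 : (Finset.univ.erase φ).card ≤ Module.finrank ℚ K := by
    rw [← AlgHom.card ℚ K ℂ]
    exact Finset.card_le_univ _
  rw [h6] at h5
  refine h5.trans (mul_le_mul_of_nonneg_left (h7.trans (pow_le_pow_right₀ hM1 h8)) (norm_nonneg _))

theorem liouville (N : ℕ) (f : MvPolynomial (Fin N) ℤ) : ∃ C : ℝ, 0 < C ∧ ∀ n : ℕ, 0 < n →
    ∀ k : Fin N → Fin n,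
      MvPolynomial.eval₂Hom (Int.castRingHom ℂ) (fun i => Complex.exp (2 * (Real.pi : ℂ) *
        Complex.I * (((k i : ℕ) : ℂ) / (n : ℂ)))) f ≠ 0 →
      Real.exp (-(C * n)) ≤ ‖MvPolynomial.eval₂Hom (Int.castRingHom ℂ)
        (fun i => Complex.exp (2 * (Real.pi : ℂ) * Complex.I * (((k i : ℕ) : ℂ) / (n : ℂ)))) f‖ := by
  refine ⟨Real.log (mass f) + 1, by
    have := Real.log_nonneg (one_le_mass f)
    linarith, fun n hn k h0 => ?_⟩
  have : NeZero n := ⟨hn.ne'⟩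
  have hM0 : 0 < mass f := lt_of_lt_of_le one_pos (one_le_mass f)
  let K := CyclotomicField n ℚ
  have hcyc : IsCyclotomicExtension {n} ℚ K := CyclotomicField.isCyclotomicExtension n ℚ
  have hnf : NumberField K := IsCyclotomicExtension.numberField {n} ℚ K
  have hζ : IsPrimitiveRoot (IsCyclotomicExtension.zeta n ℚ K) n :=
    IsCyclotomicExtension.zeta_spec n ℚ K
  obtain ⟨ζ, hζe⟩ : ∃ ζ : K, ζ = IsCyclotomicExtension.zeta n ℚ K := ⟨_, rfl⟩
  rw [← hζe] at hζ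
  obtain ⟨φ⟩ : Nonempty (K →ₐ[ℚ] ℂ) := ⟨IsAlgClosed.lift⟩
  have hφζ : IsPrimitiveRoot (φ ζ) n := hζ.map_of_injective φ.injective
  have hz : IsPrimitiveRoot (Complex.exp (2 * Real.pi * Complex.I / n)) n :=
    Complex.isPrimitiveRoot_exp n hn.ne'
  obtain ⟨j, hj, hj2⟩ := hφζ.eq_pow_of_pow_eq_one hz.pow_eq_one
  have hw : ∀ i, Complex.exp (2 * (Real.pi : ℂ) * Complex.I * (((k i : ℕ) : ℂ) / (n : ℂ))) =
      φ (ζ ^ (j * (k i : ℕ))) := by
    intro i
    rw [map_pow, pow_mul, hj2, ← Complex.exp_nat_mul]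
    congr 1
    ring
  have hv : MvPolynomial.eval₂Hom (Int.castRingHom ℂ) (fun i => Complex.exp (2 * (Real.pi : ℂ) *
      Complex.I * (((k i : ℕ) : ℂ) / (n : ℂ)))) f =
      φ (MvPolynomial.eval₂Hom (Int.castRingHom K) (fun i => ζ ^ (j * (k i : ℕ))) f) := by
    have e1 : (fun i => Complex.exp (2 * (Real.pi : ℂ) * Complex.I *
        (((k i : ℕ) : ℂ) / (n : ℂ)))) = fun i => φ (ζ ^ (j * (k i : ℕ))) := funext hw
    rw [e1]
    have e2 := MvPolynomial.eval₂_comp_left (φ : K →+* ℂ) (Int.castRingHom K)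
      (fun i => ζ ^ (j * (k i : ℕ))) f
    simp only [MvPolynomial.coe_eval₂Hom]
    have e3 : (φ : K →+* ℂ).comp (Int.castRingHom K) = Int.castRingHom ℂ := RingHom.ext_int _ _
    rw [e3] at e2
    exact e2.symm
  obtain ⟨x, hx⟩ : ∃ x : K, x = MvPolynomial.eval₂Hom (Int.castRingHom K)
    (fun i => ζ ^ (j * (k i : ℕ))) f := ⟨_, rfl⟩
  rw [← hx] at hv
  rw [hv] at h0 ⊢
  have hx0 : x ≠ 0 := by
    rintro rfl
    exact h0 (map_zero φ)
  have hζi : IsIntegral ℤ ζ := hζ.isIntegral hn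
  have hxi : IsIntegral ℤ x := by
    rw [hx, MvPolynomial.coe_eval₂Hom, MvPolynomial.eval₂_eq]
    refine IsIntegral.sum _ fun e _ => IsIntegral.mul ?_ (IsIntegral.prod _ fun i _ => ?_)
    · rw [eq_intCast]
      exact isIntegral_algebraMap (x := f.coeff e)
    · exact (hζi.pow _).pow _
  have hb : ∀ σ : K →ₐ[ℚ] ℂ, ‖σ x‖ ≤ mass f := by
    intro σ
    have e2 := MvPolynomial.eval₂_comp_left (σ : K →+* ℂ) (Int.castRingHom K)
      (fun i => ζ ^ (j * (k i : ℕ))) f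
    have e3 : (σ : K →+* ℂ).comp (Int.castRingHom K) = Int.castRingHom ℂ := RingHom.ext_int _ _
    rw [e3] at e2
    have e4 : σ x = MvPolynomial.eval₂ (Int.castRingHom ℂ)
        ((σ : K →+* ℂ) ∘ fun i => ζ ^ (j * (k i : ℕ))) f := by
      rw [hx, MvPolynomial.coe_eval₂Hom]
      exact e2
    rw [e4]
    refine eval_le_mass f _ fun i => ?_
    have e5 : (σ ζ) ^ n = 1 := by rw [← map_pow, hζ.pow_eq_one, map_one]
    have e6 : ‖σ ζ‖ = 1 := Complex.norm_eq_one_of_pow_eq_one e5 hn.ne'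
    simp only [Function.comp_apply, RingHom.coe_coe, map_pow, norm_pow, e6,
      one_pow]
  have h1 := norm_lower K x hxi hx0 (mass f) (one_le_mass f) hb φ
  have h2 : Module.finrank ℚ K ≤ n := by
    rw [IsCyclotomicExtension.finrank K (Polynomial.cyclotomic.irreducible_rat hn)]
    exact Nat.totient_le n
  have h3 : 1 ≤ ‖φ x‖ * mass f ^ n :=
    h1.trans (mul_le_mul_of_nonneg_left (pow_le_pow_right₀ (one_le_mass f) h2) (norm_nonneg _))
  have h4 : mass f ^ n ≤ Real.exp ((Real.log (mass f) + 1) * n) := by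
    have : mass f ^ n = Real.exp (Real.log (mass f) * n) := by
      rw [mul_comm, Real.exp_nat_mul, Real.exp_log hM0]
    rw [this]
    apply Real.exp_le_exp.2
    have : (0 : ℝ) ≤ n := Nat.cast_nonneg n
    nlinarith
  rw [Real.exp_neg, inv_le_comm₀ (Real.exp_pos _) (norm_pos_iff.2 h0)]
  have h5 : 0 < ‖φ x‖ := norm_pos_iff.2 h0
  rw [inv_le_iff_one_le_mul₀ h5]
  calc (1 : ℝ) ≤ ‖φ x‖ * mass f ^ n := h3
    _ ≤ ‖φ x‖ * Real.exp ((Real.log (mass f) + 1) * n) :=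
      mul_le_mul_of_nonneg_left h4 h5.le
    _ = Real.exp ((Real.log (mass f) + 1) * n) * ‖φ x‖ := mul_comm _ _

end Pool.Agent.T9h18.TG
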